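import Pool.Agent.W187.WP.Stmts4

/-! WP-PROJ (helper439): projection on polynomials of given parity -/

set_option autoImplicit false

namespace Pool.Agent.W439.WP
open MeasureTheory Set Pool.Agent.W187.WP

/-- the polynomial of a coefficient vector -/
noncomputable def pl (e n : ℕ) (c : Fin n → ℝ) (x : ℝ) : ℝ := ∑ j : Fin n, c j * x ^ (e + 2 * (j : ℕ))

theorem pl_cont (e n : ℕ) (c : Fin n → ℝ) : Continuous (pl e n c) := by
  unfold pl
  fun_prop

/-- the Gram map -/
noncomputable def gram (e n : ℕ) : (Fin n → ℝ) →ₗ[ℝ] (Fin n → ℝ) where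
  toFun c k := ∫ x in (-1 : ℝ)..1, pl e n c x * x ^ (e + 2 * (k : ℕ))
  map_add' c d := by
    funext k
    have hc := pl_cont e n c
    have hd := pl_cont e n d
    show _ = (∫ x in (-1 : ℝ)..1, pl e n c x * x ^ (e + 2 * (k : ℕ))) +
      ∫ x in (-1 : ℝ)..1, pl e n d x * x ^ (e + 2 * (k : ℕ))
    rw [← intervalIntegral.integral_add
      (Continuous.intervalIntegrable (by fun_prop) _ _)
      (Continuous.intervalIntegrable (by fun_prop) _ _)]
    congr 1
    funext x
    unfold pl
    simp only [Pi.add_apply, add_mul, Finset.sum_add_distrib]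
  map_smul' a c := by
    funext k
    show _ = a * (∫ x in (-1 : ℝ)..1, pl e n c x * x ^ (e + 2 * (k : ℕ)))
    rw [← intervalIntegral.integral_const_mul]
    congr 1
    funext x
    unfold pl
    simp only [Pi.smul_apply, smul_eq_mul, Finset.mul_sum, Finset.sum_mul]
    refine Finset.sum_congr rfl fun j _ => ?_
    ring

theorem gram_inj (e n : ℕ) : Function.Injective (gram e n) := by
  rw [injective_iff_map_eq_zero]
  intro c hc
  have hcont := pl_cont e n c
  have h1 : ∀ k : Fin n, ∫ x in (-1 : ℝ)..1, pl e n c x * x ^ (e + 2 * (k : ℕ)) = 0 := fun k =>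
    congrFun hc k
  have h2 : ∫ x in (-1 : ℝ)..1, pl e n c x * pl e n c x = 0 := by
    have e1 : (fun x : ℝ => pl e n c x * pl e n c x) =
        fun x : ℝ => ∑ k : Fin n, c k * (pl e n c x * x ^ (e + 2 * (k : ℕ))) := by
      funext x
      conv_lhs => rw [show pl e n c x * pl e n c x =
        pl e n c x * ∑ j : Fin n, c j * x ^ (e + 2 * (j : ℕ)) from rfl]
      rw [Finset.mul_sum]
      refine Finset.sum_congr rfl fun j _ => ?_
      ring
    rw [e1, intervalIntegral.integral_finset_sum]
    · refine Finset.sum_eq_zero fun k _ => ?_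
      rw [intervalIntegral.integral_const_mul, h1 k, mul_zero]
    · intro k _
      exact Continuous.intervalIntegrable (by fun_prop) _ _
  have h3 : ∀ x ∈ Icc (-1 : ℝ) 1, pl e n c x = 0 := by
    by_contra hne
    push Not at hne
    obtain ⟨z, hz, hzne⟩ := hne
    have hpos : 0 < ∫ x in (-1 : ℝ)..1, pl e n c x * pl e n c x := by
      refine intervalIntegral.integral_pos (by norm_num) (by fun_prop)
        (fun x _ => mul_self_nonneg _) ⟨z, hz, ?_⟩
      exact lt_of_le_of_ne (mul_self_nonneg _) (Ne.symm (mul_self_ne_zero.mpr hzne))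
    linarith
  -- the polynomial vanishes
  let P : Polynomial ℝ := ∑ j : Fin n, Polynomial.C (c j) * Polynomial.X ^ (e + 2 * (j : ℕ))
  have hP : ∀ x, P.eval x = pl e n c x := by
    intro x
    simp [P, pl, Polynomial.eval_finset_sum]
  have hP0 : P = 0 := by
    apply Polynomial.eq_zero_of_infinite_isRoot
    refine Set.Infinite.mono (s := Icc (-1 : ℝ) 1) ?_ (Icc_infinite (by norm_num))
    intro x hx
    show P.eval x = 0
    rw [hP, h3 x hx]
  funext k
  have h4 : P.coeff (e + 2 * (k : ℕ)) = c k := by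
    simp only [P, Polynomial.finset_sum_coeff, Polynomial.coeff_C_mul, Polynomial.coeff_X_pow]
    rw [Finset.sum_eq_single k]
    · simp
    · intro j _ hj
      rw [if_neg, mul_zero]
      intro hh
      apply hj
      ext
      omega
    · intro hk
      exact absurd (Finset.mem_univ k) hk
  rw [← h4, hP0]
  simp

theorem proj : S_PROJ := by
  intro e n h hh
  obtain ⟨c, hc⟩ := (LinearMap.injective_iff_surjective.mp (gram_inj e n))
    (fun k => ∫ x in (-1 : ℝ)..1, h x * x ^ (e + 2 * (k : ℕ)))
  refine ⟨fun j => if hj : j < n then c ⟨j, hj⟩ else 0, fun k hk => ?_⟩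
  have h1 := congrFun hc ⟨k, hk⟩
  have hcont := pl_cont e n c
  have e1 : ∀ x : ℝ, ∑ j ∈ Finset.range n, (if hj : j < n then c ⟨j, hj⟩ else 0) * x ^ (e + 2 * j) =
      pl e n c x := by
    intro x
    rw [Finset.sum_range]
    unfold pl
    refine Finset.sum_congr rfl fun j _ => ?_
    simp
  simp only [e1, sub_mul]
  rw [intervalIntegral.integral_sub (Continuous.intervalIntegrable (by fun_prop) _ _)
    (Continuous.intervalIntegrable (by fun_prop) _ _)]
  have h2 : ∫ x in (-1 : ℝ)..1, pl e n c x * x ^ (e + 2 * k) =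
      ∫ x in (-1 : ℝ)..1, h x * x ^ (e + 2 * k) := h1
  rw [h2, sub_self]

end Pool.Agent.W439.WP
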