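import Pool.Agent.W187.WP.Stmts3
import Pool.Agent.W120.WP.TRI

/-! WP-R1 (helper439): bilinearity of the rational Weil form -/

set_option autoImplicit false

namespace Pool.Agent.W439.WP
open MeasureTheory Set Pool.Agent.W187.WP

/-- the mean slope -/
noncomputable def sl (v : ℝ → ℝ) (x y : ℝ) : ℝ := ∫ t in (0 : ℝ)..1, deriv v (x + t * (y - x))

theorem sl_cont (v : ℝ → ℝ) (hv : ContDiff ℝ 1 v) : Continuous (Function.uncurry (sl v)) := by
  have hd : Continuous (deriv v) := hv.continuous_deriv le_rfl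
  have := intervalIntegral.continuous_parametric_intervalIntegral_of_continuous'
    (f := fun (p : ℝ × ℝ) (t : ℝ) => deriv v (p.1 + t * (p.2 - p.1))) (μ := volume)
    (by
      have : Continuous (fun q : (ℝ × ℝ) × ℝ => deriv v (q.1.1 + q.2 * (q.1.2 - q.1.1))) := by
        fun_prop
      exact this) 0 1
  exact this

theorem sl_eq (v : ℝ → ℝ) (hv : ContDiff ℝ 1 v) (x y : ℝ) : v y - v x = (y - x) * sl v x y := by
  have hd : Continuous (deriv v) := hv.continuous_deriv le_rfl
  have h1 : ∀ t ∈ uIcc (0 : ℝ) 1, HasDerivAt (fun t : ℝ => v (x + t * (y - x)))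
      (deriv v (x + t * (y - x)) * (y - x)) t := by
    intro t _
    have h2 : HasDerivAt v (deriv v (x + t * (y - x))) (x + t * (y - x)) :=
      ((hv.differentiable one_ne_zero) _).hasDerivAt
    have h3 : HasDerivAt (fun t : ℝ => x + t * (y - x)) (y - x) t := by
      simpa using ((hasDerivAt_id t).mul_const (y - x)).const_add x
    exact h2.comp t h3
  have h4 := intervalIntegral.integral_eq_sub_of_hasDerivAt h1 (by
    apply Continuous.intervalIntegrable
    fun_prop)
  have e1 : x + 1 * (y - x) = y := by ring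
  have e0 : x + 0 * (y - x) = x := by ring
  rw [e1, e0] at h4
  rw [← h4, intervalIntegral.integral_mul_const, mul_comm]
  rfl

/-- the energy integrand, continuous form -/
noncomputable def K (v w : ℝ → ℝ) (x y : ℝ) : ℝ := (y - x) * sl v x y * sl w x y

theorem K_cont (v w : ℝ → ℝ) (hv : ContDiff ℝ 1 v) (hw : ContDiff ℝ 1 w) :
    Continuous (Function.uncurry (K v w)) := by
  have h1 := sl_cont v hv
  have h2 := sl_cont w hw
  have : Continuous (fun p : ℝ × ℝ => (p.2 - p.1) * Function.uncurry (sl v) p *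
    Function.uncurry (sl w) p) := by fun_prop
  exact this

theorem K_eq (v w : ℝ → ℝ) (hv : ContDiff ℝ 1 v) (hw : ContDiff ℝ 1 w) (x y : ℝ) :
    (v y - v x) * (w y - w x) / (y - x) = K v w x y := by
  rw [sl_eq v hv, sl_eq w hw, K]
  by_cases h : y - x = 0
  · rw [h]
    simp
  · field_simp

/-- the integral over the triangle -/
noncomputable def Tr (F : ℝ → ℝ → ℝ) : ℝ := ∫ x in (-1 : ℝ)..1, (∫ y in x..1, F x y)

theorem Tr_add (F G : ℝ → ℝ → ℝ) (hF : Continuous (Function.uncurry F))
    (hG : Continuous (Function.uncurry G)) :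
    Tr (fun x y => F x y + G x y) = Tr F + Tr G := by
  have hF1 := W120.WP.inner_continuous F hF
  have hG1 := W120.WP.inner_continuous G hG
  unfold Tr
  rw [← intervalIntegral.integral_add (hF1.intervalIntegrable _ _) (hG1.intervalIntegrable _ _)]
  congr 1
  funext x
  have hFx : Continuous (F x) := hF.comp (by fun_prop : Continuous fun y : ℝ => (x, y))
  have hGx : Continuous (G x) := hG.comp (by fun_prop : Continuous fun y : ℝ => (x, y))
  rw [← intervalIntegral.integral_add (hFx.intervalIntegrable _ _) (hGx.intervalIntegrable _ _)]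

theorem Tr_smul (c : ℝ) (F : ℝ → ℝ → ℝ) : Tr (fun x y => c * F x y) = c * Tr F := by
  unfold Tr
  rw [← intervalIntegral.integral_const_mul]
  congr 1
  funext x
  rw [← intervalIntegral.integral_const_mul]

theorem Tr_congr (F G : ℝ → ℝ → ℝ) (h : ∀ x y, F x y = G x y) : Tr F = Tr G := by
  have : F = G := by
    funext x y
    exact h x y
  rw [this]

/-- the integral over the interval -/
noncomputable def In (a b : ℝ) (f : ℝ → ℝ) : ℝ := ∫ x in a..b, f x

theorem In_add (a b : ℝ) (f g : ℝ → ℝ) (hf : Continuous f) (hg : Continuous g) :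
    In a b (fun x => f x + g x) = In a b f + In a b g :=
  intervalIntegral.integral_add (hf.intervalIntegrable _ _) (hg.intervalIntegrable _ _)

theorem In_smul (a b c : ℝ) (f : ℝ → ℝ) : In a b (fun x => c * f x) = c * In a b f :=
  intervalIntegral.integral_const_mul _ _

theorem Um_cont : Continuous Um := by
  unfold Um
  fun_prop

/-- the form in terms of these integrals -/
theorem Cr_eq (v w : ℝ → ℝ) (hv : ContDiff ℝ 1 v) (hw : ContDiff ℝ 1 w) :
    Cr v w = 1 / 2 * Tr (K v w) + In (-1) 1 (fun x => Um x * (v x * w x))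
      - (c2Q : ℝ) * In (-1) 1 (fun x => v x * w x)
      - Tr (fun x y => ev btl (y - x) * ((v x * w y + v y * w x) / 2))
      - (lamQ : ℝ) * In (-1) (-1 / 4) (fun x => v x * w (x + 5 / 4) + w x * v (x + 5 / 4))
      + 2 * (aQ : ℝ) * (In (-1) 1 (fun x => v x * ev cpl x) * In (-1) 1 (fun x => w x * ev cpl x) -
        In (-1) 1 (fun x => v x * ev spl x) * In (-1) 1 (fun x => w x * ev spl x)) := by
  rw [← Tr_congr _ _ (K_eq v w hv hw)]
  rfl

theorem Qr_eq (v : ℝ → ℝ) (hv : ContDiff ℝ 1 v) : Qr v = Cr v v := by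
  have h1 : EE v = Tr (fun x y => (v y - v x) * (v y - v x) / (y - x)) := by
    unfold EE
    refine Tr_congr _ _ fun x y => ?_
    rw [sq]
  have h2 : (∫ x in (-1 : ℝ)..1, Um x * v x ^ 2) = ∫ x in (-1 : ℝ)..1, Um x * (v x * v x) := by
    congr 1
    funext x
    rw [sq]
  have h3 : (∫ x in (-1 : ℝ)..1, v x ^ 2) = ∫ x in (-1 : ℝ)..1, (v x * v x) := by
    congr 1
    funext x
    rw [sq]
  have h4 : (∫ x in (-1 : ℝ)..1, (∫ y in x..1, ev btl (y - x) * (v x * v y))) =
      ∫ x in (-1 : ℝ)..1, (∫ y in x..1, ev btl (y - x) * ((v x * v y + v y * v x) / 2)) := by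
    refine Tr_congr _ _ fun x y => ?_
    ring
  have h5 : 2 * (∫ x in (-1 : ℝ)..(-1 / 4), v x * v (x + 5 / 4)) =
      ∫ x in (-1 : ℝ)..(-1 / 4), (v x * v (x + 5 / 4) + v x * v (x + 5 / 4)) := by
    rw [← intervalIntegral.integral_const_mul]
    congr 1
    funext x
    ring
  unfold Qr Cr
  rw [h1, h2, h3, h4, ← h5]
  unfold Tr
  ring

theorem K_add (v v' w : ℝ → ℝ) (hv : ContDiff ℝ 1 v) (hv' : ContDiff ℝ 1 v')
    (hw : ContDiff ℝ 1 w) (x y : ℝ) : K (fun x => v x + v' x) w x y = K v w x y + K v' w x y := by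
  rw [← K_eq _ w (hv.add hv') hw, ← K_eq v w hv hw, ← K_eq v' w hv' hw]
  ring

theorem K_smul (c : ℝ) (v w : ℝ → ℝ) (hv : ContDiff ℝ 1 v)
    (hw : ContDiff ℝ 1 w) (x y : ℝ) : K (fun x => c * v x) w x y = c * K v w x y := by
  rw [← K_eq _ w (contDiff_const.mul hv) hw, ← K_eq v w hv hw]
  ring

theorem Cr_add (v v' w : ℝ → ℝ) (hv : ContDiff ℝ 1 v) (hv' : ContDiff ℝ 1 v')
    (hw : ContDiff ℝ 1 w) : Cr (fun x => v x + v' x) w = Cr v w + Cr v' w := by
  have cv := hv.continuous
  have cv' := hv'.continuous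
  have cw := hw.continuous
  have cU := Um_cont
  have cb := continuous_ev btl
  have cc := continuous_ev cpl
  have cs := continuous_ev spl
  rw [Cr_eq _ w (hv.add hv') hw, Cr_eq v w hv hw, Cr_eq v' w hv' hw]
  have e1 : Tr (K (fun x => v x + v' x) w) = Tr (K v w) + Tr (K v' w) := by
    rw [← Tr_add _ _ (K_cont v w hv hw) (K_cont v' w hv' hw)]
    exact Tr_congr _ _ (K_add v v' w hv hv' hw)
  have e2 : In (-1) 1 (fun x => Um x * ((v x + v' x) * w x)) =
      In (-1) 1 (fun x => Um x * (v x * w x)) + In (-1) 1 (fun x => Um x * (v' x * w x)) := by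
    rw [← In_add _ _ _ _ (by fun_prop) (by fun_prop)]
    congr 1
    funext x
    ring
  have e3 : In (-1) 1 (fun x => (v x + v' x) * w x) =
      In (-1) 1 (fun x => v x * w x) + In (-1) 1 (fun x => v' x * w x) := by
    rw [← In_add _ _ _ _ (by fun_prop) (by fun_prop)]
    congr 1
    funext x
    ring
  have e4 : Tr (fun x y => ev btl (y - x) * (((v x + v' x) * w y + (v y + v' y) * w x) / 2)) =
      Tr (fun x y => ev btl (y - x) * ((v x * w y + v y * w x) / 2)) +
      Tr (fun x y => ev btl (y - x) * ((v' x * w y + v' y * w x) / 2)) := by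
    rw [← Tr_add _ _
      (by
        have : Continuous (fun p : ℝ × ℝ => ev btl (p.2 - p.1) *
          ((v p.1 * w p.2 + v p.2 * w p.1) / 2)) := by fun_prop
        exact this)
      (by
        have : Continuous (fun p : ℝ × ℝ => ev btl (p.2 - p.1) *
          ((v' p.1 * w p.2 + v' p.2 * w p.1) / 2)) := by fun_prop
        exact this)]
    refine Tr_congr _ _ fun x y => ?_
    ring
  have e5 : In (-1) (-1 / 4) (fun x => (v x + v' x) * w (x + 5 / 4) +
        w x * (v (x + 5 / 4) + v' (x + 5 / 4))) =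
      In (-1) (-1 / 4) (fun x => v x * w (x + 5 / 4) + w x * v (x + 5 / 4)) +
      In (-1) (-1 / 4) (fun x => v' x * w (x + 5 / 4) + w x * v' (x + 5 / 4)) := by
    rw [← In_add _ _ _ _ (by fun_prop) (by fun_prop)]
    congr 1
    funext x
    ring
  have e6 : In (-1) 1 (fun x => (v x + v' x) * ev cpl x) =
      In (-1) 1 (fun x => v x * ev cpl x) + In (-1) 1 (fun x => v' x * ev cpl x) := by
    rw [← In_add _ _ _ _ (by fun_prop) (by fun_prop)]
    congr 1
    funext x
    ring
  have e7 : In (-1) 1 (fun x => (v x + v' x) * ev spl x) =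
      In (-1) 1 (fun x => v x * ev spl x) + In (-1) 1 (fun x => v' x * ev spl x) := by
    rw [← In_add _ _ _ _ (by fun_prop) (by fun_prop)]
    congr 1
    funext x
    ring
  rw [e1, e2, e3, e4, e5, e6, e7]
  ring

theorem Cr_smul (c : ℝ) (v w : ℝ → ℝ) (hv : ContDiff ℝ 1 v)
    (hw : ContDiff ℝ 1 w) : Cr (fun x => c * v x) w = c * Cr v w := by
  rw [Cr_eq _ w (contDiff_const.mul hv) hw, Cr_eq v w hv hw]
  have e1 : Tr (K (fun x => c * v x) w) = c * Tr (K v w) := by
    rw [← Tr_smul]
    exact Tr_congr _ _ (K_smul c v w hv hw)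
  have e2 : In (-1) 1 (fun x => Um x * (c * v x * w x)) =
      c * In (-1) 1 (fun x => Um x * (v x * w x)) := by
    rw [← In_smul]
    congr 1
    funext x
    ring
  have e3 : In (-1) 1 (fun x => c * v x * w x) = c * In (-1) 1 (fun x => v x * w x) := by
    rw [← In_smul]
    congr 1
    funext x
    ring
  have e4 : Tr (fun x y => ev btl (y - x) * ((c * v x * w y + c * v y * w x) / 2)) =
      c * Tr (fun x y => ev btl (y - x) * ((v x * w y + v y * w x) / 2)) := by
    rw [← Tr_smul]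
    refine Tr_congr _ _ fun x y => ?_
    ring
  have e5 : In (-1) (-1 / 4) (fun x => c * v x * w (x + 5 / 4) + w x * (c * v (x + 5 / 4))) =
      c * In (-1) (-1 / 4) (fun x => v x * w (x + 5 / 4) + w x * v (x + 5 / 4)) := by
    rw [← In_smul]
    congr 1
    funext x
    ring
  have e6 : In (-1) 1 (fun x => c * v x * ev cpl x) = c * In (-1) 1 (fun x => v x * ev cpl x) := by
    rw [← In_smul]
    congr 1
    funext x
    ring
  have e7 : In (-1) 1 (fun x => c * v x * ev spl x) = c * In (-1) 1 (fun x => v x * ev spl x) := by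
    rw [← In_smul]
    congr 1
    funext x
    ring
  rw [e1, e2, e3, e4, e5, e6, e7]
  ring

theorem Cr_comm (v w : ℝ → ℝ) : Cr v w = Cr w v := by
  have e1 : (∫ x in (-1 : ℝ)..1, (∫ y in x..1, (v y - v x) * (w y - w x) / (y - x))) =
      ∫ x in (-1 : ℝ)..1, (∫ y in x..1, (w y - w x) * (v y - v x) / (y - x)) := by
    refine Tr_congr _ _ fun x y => ?_
    rw [mul_comm (v y - v x)]
  have e2 : (∫ x in (-1 : ℝ)..1, Um x * (v x * w x)) =
      ∫ x in (-1 : ℝ)..1, Um x * (w x * v x) := by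
    congr 1
    funext x
    ring
  have e3 : (∫ x in (-1 : ℝ)..1, v x * w x) = ∫ x in (-1 : ℝ)..1, w x * v x := by
    congr 1
    funext x
    ring
  have e4 : (∫ x in (-1 : ℝ)..1, (∫ y in x..1, ev btl (y - x) *
        ((v x * w y + v y * w x) / 2))) =
      ∫ x in (-1 : ℝ)..1, (∫ y in x..1, ev btl (y - x) * ((w x * v y + w y * v x) / 2)) := by
    refine Tr_congr _ _ fun x y => ?_
    ring
  have e5 : (∫ x in (-1 : ℝ)..(-1 / 4), (v x * w (x + 5 / 4) + w x * v (x + 5 / 4))) =
      ∫ x in (-1 : ℝ)..(-1 / 4), (w x * v (x + 5 / 4) + v x * w (x + 5 / 4)) := by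
    congr 1
    funext x
    ring
  unfold Cr
  rw [e1, e2, e3, e4, e5]
  ring

theorem r1 : S_R1 := by
  refine ⟨fun v w hv hw => ?_, Qr_eq, Cr_add, Cr_smul⟩
  rw [Qr_eq _ (hv.add hw), Cr_add v w _ hv hw (hv.add hw), Cr_comm v, Cr_comm w,
    Cr_add v w v hv hw hv, Cr_add v w w hv hw hw, Cr_comm w v, Qr_eq v hv, Qr_eq w hw]
  ring

end Pool.Agent.W439.WP
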