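import Pool.Agent.W187.WP.Stmts4
import Pool.Agent.W15.WP.R2B

/-! WP-R2C (helper439): convolution kernel of a monomial against a function -/

set_option autoImplicit false

namespace Pool.Agent.W439.WP
open MeasureTheory Set Pool.Agent.W187.WP

noncomputable def U (N k : ℕ) (x : ℝ) : ℝ := ∫ y in (-1 : ℝ)..x, (x - y) ^ k * y ^ N

def mono (N : ℕ) : List ℚ := List.replicate N 0 ++ [1]

theorem ev_mono (N : ℕ) (x : ℝ) : ev (mono N) x = x ^ N := by
  unfold mono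
  induction N with
  | zero => simp
  | succ n ih =>
    rw [List.replicate_succ, List.cons_append, ev_cons, ih]
    push_cast
    ring

theorem U_eq (N k : ℕ) (x : ℝ) :
    U N k x = (k.factorial : ℝ) * ev (A0^[k + 1] (psh' (-1) (mono N))) (x + 1) := by
  rw [← integral_sub_pow]
  unfold U
  have h2 := intervalIntegral.integral_comp_add_right
    (f := fun t => (x + 1 - t) ^ k * ev (psh' (-1) (mono N)) t) (a := -1) (b := x) 1
  rw [show (-1 : ℝ) + 1 = 0 by norm_num] at h2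
  rw [← h2]
  congr 1
  funext y
  rw [ev_psh', ev_mono]
  push_cast
  rw [show x + 1 - (y + 1) = x - y by ring, show y + 1 + -1 = y by ring]

theorem U_deriv (N k : ℕ) (x : ℝ) : HasDerivAt (U N (k + 1)) (((k : ℝ) + 1) * U N k x) x := by
  have e : U N (k + 1) = fun x => ((k + 1).factorial : ℝ) *
      ev (A0 (A0^[k + 1] (psh' (-1) (mono N)))) (x + 1) := by
    funext y
    rw [U_eq, Function.iterate_succ_apply']
  rw [e, U_eq]
  have h := (hasDerivAt_A0 (A0^[k + 1] (psh' (-1) (mono N))) (x + 1)).comp_add_const x 1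
  have h2 := h.const_mul ((k + 1).factorial : ℝ)
  have e2 : ((k : ℝ) + 1) * ((k.factorial : ℝ) * ev (A0^[k + 1] (psh' (-1) (mono N))) (x + 1)) =
      ((k + 1).factorial : ℝ) * ev (A0^[k + 1] (psh' (-1) (mono N))) (x + 1) := by
    rw [Nat.factorial_succ]
    push_cast
    ring
  rw [e2]
  exact h2

theorem U_neg_deriv (N k : ℕ) (x : ℝ) :
    HasDerivAt (fun x => U N (k + 1) (-x)) (-(((k : ℝ) + 1) * U N k (-x))) x := by
  have h := (U_deriv N k (-x)).comp x (hasDerivAt_neg x)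
  have e : ((k : ℝ) + 1) * U N k (-x) * -1 = -(((k : ℝ) + 1) * U N k (-x)) := by ring
  rw [e] at h
  exact h

theorem U_zero_left (N : ℕ) (x : ℝ) : U N 0 x = (x ^ (N + 1) + (-1) ^ N) / ((N : ℝ) + 1) := by
  unfold U
  simp only [pow_zero, one_mul]
  rw [integral_pow]
  congr 1
  ring

theorem U_zero_right (N k : ℕ) : U N k 0 = (-1) ^ N / ((N : ℝ) + (k : ℝ) + 1) := by
  unfold U
  have e : (fun y : ℝ => (0 - y) ^ k * y ^ N) = fun y : ℝ => (-1) ^ k * y ^ (k + N) := by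
    funext y
    rw [zero_sub, neg_pow, pow_add]
    ring
  rw [e, intervalIntegral.integral_const_mul, integral_pow]
  have h1 : ((-1 : ℝ)) ^ k * (-1) ^ k = 1 := by
    rw [← mul_pow]; norm_num
  have h2 : ((-1 : ℝ)) ^ (k + N + 1) = -((-1) ^ k * (-1) ^ N) := by
    rw [pow_succ, pow_add]; ring
  have h3 : (0 : ℝ) ^ (k + N + 1) = 0 := zero_pow (by omega)
  rw [h2, h3]
  push_cast
  have hne : ((k : ℝ) + (N : ℝ) + 1) ≠ 0 := by positivity
  have hne' : ((N : ℝ) + (k : ℝ) + 1) ≠ 0 := by positivity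
  rw [← mul_div_assoc, show ((k : ℝ) + (N : ℝ) + 1) = ((N : ℝ) + (k : ℝ) + 1) by ring]
  congr 1
  linear_combination ((-1 : ℝ)) ^ N * h1

noncomputable def Fk (e N k : ℕ) (x : ℝ) : ℝ := 1 / 2 * (U N k x + (-1) ^ e * U N k (-x))

noncomputable def Hk (e N k : ℕ) (x : ℝ) : ℝ := 1 / 2 * (U N k x - (-1) ^ e * U N k (-x))

theorem Fk_deriv (e N k : ℕ) (x : ℝ) :
    HasDerivAt (Fk e N (k + 1)) (((k : ℝ) + 1) * Hk e N k x) x := by
  have h := ((U_deriv N k x).add ((U_neg_deriv N k x).const_mul ((-1 : ℝ) ^ e))).const_mul (1 / 2 : ℝ)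
  have e2 : ((k : ℝ) + 1) * Hk e N k x =
      1 / 2 * (((k : ℝ) + 1) * U N k x + (-1) ^ e * (-(((k : ℝ) + 1) * U N k (-x)))) := by
    unfold Hk
    ring
  rw [e2]
  exact h

theorem Hk_deriv (e N k : ℕ) (x : ℝ) :
    HasDerivAt (Hk e N (k + 1)) (((k : ℝ) + 1) * Fk e N k x) x := by
  have h := ((U_deriv N k x).sub ((U_neg_deriv N k x).const_mul ((-1 : ℝ) ^ e))).const_mul (1 / 2 : ℝ)
  have e2 : ((k : ℝ) + 1) * Fk e N k x =
      1 / 2 * (((k : ℝ) + 1) * U N k x - (-1) ^ e * (-(((k : ℝ) + 1) * U N k (-x)))) := by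
    unfold Fk
    ring
  rw [e2]
  exact h

def sc1 (f : ℚ) (e : ℕ) : ℕ → List ℚ → List ℚ
  | _, [] => []
  | j, a :: l => (f * a / ((e : ℚ) + 2 * (j : ℚ) + 1)) :: sc1 f e (j + 1) l

theorem sc1_deriv (f : ℚ) (e : ℕ) : ∀ (X : List ℚ) (j : ℕ) (x : ℝ),
    HasDerivAt (fun x => x ^ (e + 2 * j + 1) * ev (sc1 f e j X) (x ^ 2))
      ((f : ℝ) * (x ^ (e + 2 * j) * ev X (x ^ 2))) x
  | [], j, x => by simpa [sc1] using hasDerivAt_const x (0 : ℝ)
  | a :: X, j, x => by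
      have h := sc1_deriv f e X (j + 1) x
      have h1 : HasDerivAt (fun x : ℝ => ((f * a : ℝ) / ((e : ℝ) + 2 * (j : ℝ) + 1)) *
          x ^ (e + 2 * j + 1))
          (((f * a : ℝ) / ((e : ℝ) + 2 * (j : ℝ) + 1)) *
            (((e + 2 * j + 1 : ℕ) : ℝ) * x ^ (e + 2 * j))) x := by
        simpa using (hasDerivAt_pow (e + 2 * j + 1) x).const_mul
          ((f * a : ℝ) / ((e : ℝ) + 2 * (j : ℝ) + 1))
      have h2 := h1.add h
      have e1 : (fun x : ℝ => x ^ (e + 2 * j + 1) * ev (sc1 f e j (a :: X)) (x ^ 2)) =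
          fun x : ℝ => ((f * a : ℝ) / ((e : ℝ) + 2 * (j : ℝ) + 1)) * x ^ (e + 2 * j + 1) +
            x ^ (e + 2 * (j + 1) + 1) * ev (sc1 f e (j + 1) X) (x ^ 2) := by
        funext y
        simp only [sc1, ev_cons]
        push_cast
        ring
      have e2 : (f : ℝ) * (x ^ (e + 2 * j) * ev (a :: X) (x ^ 2)) =
          ((f * a : ℝ) / ((e : ℝ) + 2 * (j : ℝ) + 1)) *
            (((e + 2 * j + 1 : ℕ) : ℝ) * x ^ (e + 2 * j)) +
          (f : ℝ) * (x ^ (e + 2 * (j + 1)) * ev X (x ^ 2)) := by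
        have hn : ((e : ℝ) + 2 * (j : ℝ) + 1) ≠ 0 := by positivity
        simp only [ev_cons]
        push_cast
        field_simp
        ring
      rw [e1, e2]
      exact h2

theorem sc_deriv (f : ℚ) (e : ℕ) : ∀ (X : List ℚ) (j : ℕ) (x : ℝ),
    HasDerivAt (fun x => x ^ (e + 2 * j + 2) * ev (sc f e j X) (x ^ 2))
      (x ^ (e + 2 * j + 1) * ev (sc1 f e j X) (x ^ 2)) x
  | [], j, x => by simpa [sc, sc1] using hasDerivAt_const x (0 : ℝ)
  | a :: X, j, x => by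
      have h := sc_deriv f e X (j + 1) x
      have h1 : HasDerivAt (fun x : ℝ => ((f * a : ℝ) / (((e : ℝ) + 2 * (j : ℝ) + 1) *
          ((e : ℝ) + 2 * (j : ℝ) + 2))) * x ^ (e + 2 * j + 2))
          (((f * a : ℝ) / (((e : ℝ) + 2 * (j : ℝ) + 1) * ((e : ℝ) + 2 * (j : ℝ) + 2))) *
            (((e + 2 * j + 2 : ℕ) : ℝ) * x ^ (e + 2 * j + 1))) x := by
        simpa using (hasDerivAt_pow (e + 2 * j + 2) x).const_mul
          ((f * a : ℝ) / (((e : ℝ) + 2 * (j : ℝ) + 1) * ((e : ℝ) + 2 * (j : ℝ) + 2)))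
      have h2 := h1.add h
      have e1 : (fun x : ℝ => x ^ (e + 2 * j + 2) * ev (sc f e j (a :: X)) (x ^ 2)) =
          fun x : ℝ => ((f * a : ℝ) / (((e : ℝ) + 2 * (j : ℝ) + 1) *
            ((e : ℝ) + 2 * (j : ℝ) + 2))) * x ^ (e + 2 * j + 2) +
            x ^ (e + 2 * (j + 1) + 2) * ev (sc f e (j + 1) X) (x ^ 2) := by
        funext y
        simp only [sc, ev_cons]
        push_cast
        ring
      have e2 : x ^ (e + 2 * j + 1) * ev (sc1 f e j (a :: X)) (x ^ 2) =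
          ((f * a : ℝ) / (((e : ℝ) + 2 * (j : ℝ) + 1) * ((e : ℝ) + 2 * (j : ℝ) + 2))) *
            (((e + 2 * j + 2 : ℕ) : ℝ) * x ^ (e + 2 * j + 1)) +
          x ^ (e + 2 * (j + 1) + 1) * ev (sc1 f e (j + 1) X) (x ^ 2) := by
        have hn : ((e : ℝ) + 2 * (j : ℝ) + 1) ≠ 0 := by positivity
        have hn2 : ((e : ℝ) + 2 * (j : ℝ) + 2) ≠ 0 := by positivity
        simp only [sc1, ev_cons]
        push_cast
        field_simp
        ring
      rw [e1, e2]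
      exact h2

/-- a function with derivative `0` is constant -/
theorem const_of_deriv (g : ℝ → ℝ) (h : ∀ x, HasDerivAt g 0 x) (x : ℝ) : g x = g 0 :=
  is_const_of_deriv_eq_zero (fun y => (h y).differentiableAt) (fun y => (h y).deriv) x 0

theorem step (e r k : ℕ) (he : e ≤ 1) (X : List ℚ)
    (hX : ∀ x : ℝ, Fk e (e + 2 * r) k x = x ^ e * ev X (x ^ 2)) (x : ℝ) :
    Fk e (e + 2 * r) (k + 2) x = x ^ e *
      ev (cB e (e + 2 * r) (k + 2) :: sc (((k : ℚ) + 1) * ((k : ℚ) + 2)) e 0 X) (x ^ 2) := by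
  set N := e + 2 * r with hN
  set f : ℚ := ((k : ℚ) + 1) * ((k : ℚ) + 2) with hf
  have hsgn : ((-1 : ℝ)) ^ N = (-1) ^ e := by
    rw [hN, pow_add, pow_mul]
    norm_num
  -- first antiderivative
  have h1 : ∀ x, ((k : ℝ) + 2) * Hk e N (k + 1) x - x ^ (e + 2 * 0 + 1) * ev (sc1 f e 0 X) (x ^ 2) =
      ((k : ℝ) + 2) * Hk e N (k + 1) 0 := by
    intro x
    have h := const_of_deriv (fun x => ((k : ℝ) + 2) * Hk e N (k + 1) x -
      x ^ (e + 2 * 0 + 1) * ev (sc1 f e 0 X) (x ^ 2)) (fun y => by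
        have h2 := ((Hk_deriv e N k y).const_mul ((k : ℝ) + 2)).sub (sc1_deriv f e X 0 y)
        have e3 : ((k : ℝ) + 2) * (((k : ℝ) + 1) * Fk e N k y) -
            (f : ℝ) * (y ^ (e + 2 * 0) * ev X (y ^ 2)) = 0 := by
          rw [hX y, hf]
          push_cast
          rw [show e + 2 * 0 = e by ring]
          ring
        rw [e3] at h2
        exact h2) x
    rw [h]
    rw [show (0 : ℝ) ^ (e + 2 * 0 + 1) = 0 from zero_pow (by omega)]
    ring
  have h2 : ∀ x, Fk e N (k + 2) x - x ^ (e + 2 * 0 + 2) * ev (sc f e 0 X) (x ^ 2) -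
      (((k : ℝ) + 2) * Hk e N (k + 1) 0) * x = Fk e N (k + 2) 0 := by
    intro x
    have h := const_of_deriv (fun x => Fk e N (k + 2) x -
      x ^ (e + 2 * 0 + 2) * ev (sc f e 0 X) (x ^ 2) - (((k : ℝ) + 2) * Hk e N (k + 1) 0) * x)
      (fun y => by
        have h3 := ((Fk_deriv e N (k + 1) y).sub (sc_deriv f e X 0 y)).sub
          ((hasDerivAt_id y).const_mul (((k : ℝ) + 2) * Hk e N (k + 1) 0))
        have e4 : (((k + 1 : ℕ) : ℝ) + 1) * Hk e N (k + 1) y -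
            y ^ (e + 2 * 0 + 1) * ev (sc1 f e 0 X) (y ^ 2) -
            (((k : ℝ) + 2) * Hk e N (k + 1) 0) * 1 = 0 := by
          rw [← h1 y]
          push_cast
          ring
        rw [e4] at h3
        exact h3) x
    rw [h]
    rw [show (0 : ℝ) ^ (e + 2 * 0 + 2) = 0 from zero_pow (by omega)]
    ring
  have h3 := h2 x
  have hU1 := U_zero_right N (k + 1)
  have hU2 := U_zero_right N (k + 2)
  rw [hsgn] at hU1 hU2
  have hF0 : Fk e N (k + 2) 0 = 1 / 2 * (1 + (-1) ^ e) * ((-1) ^ e / ((N : ℝ) + (k : ℝ) + 3)) := by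
    unfold Fk
    rw [neg_zero, hU2]
    push_cast
    rw [show (N : ℝ) + ((k : ℝ) + 2) + 1 = (N : ℝ) + (k : ℝ) + 3 by ring]
    ring
  have hH0 : Hk e N (k + 1) 0 = 1 / 2 * (1 - (-1) ^ e) * ((-1) ^ e / ((N : ℝ) + (k : ℝ) + 2)) := by
    unfold Hk
    rw [neg_zero, hU1]
    push_cast
    rw [show (N : ℝ) + ((k : ℝ) + 1) + 1 = (N : ℝ) + (k : ℝ) + 2 by ring]
    ring
  rw [hF0, hH0] at h3
  have h4 : Fk e N (k + 2) x = x ^ (e + 2) * ev (sc f e 0 X) (x ^ 2) +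
      (((k : ℝ) + 2) * (1 / 2 * (1 - (-1) ^ e) * ((-1) ^ e / ((N : ℝ) + (k : ℝ) + 2)))) * x +
      1 / 2 * (1 + (-1) ^ e) * ((-1) ^ e / ((N : ℝ) + (k : ℝ) + 3)) := by
    rw [show e + 2 * 0 + 2 = e + 2 by ring] at h3
    linear_combination h3
  rw [h4, ev_cons]
  have he' : e = 0 ∨ e = 1 := by omega
  rcases he' with h0 | h0
  · have hc : ((cB e N (k + 2) : ℚ) : ℝ) = 1 / ((N : ℝ) + (k : ℝ) + 3) := by
      unfold cB
      rw [if_pos h0]
      push_cast
      rw [show (N : ℝ) + ((k : ℝ) + 2) + 1 = (N : ℝ) + (k : ℝ) + 3 by ring]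
    rw [hc, h0]
    ring
  · have hc : ((cB e N (k + 2) : ℚ) : ℝ) = -((k : ℝ) + 2) / ((N : ℝ) + (k : ℝ) + 2) := by
      unfold cB
      rw [if_neg (by omega)]
      push_cast
      rw [show (N : ℝ) + ((k : ℝ) + 2) = (N : ℝ) + (k : ℝ) + 2 by ring]
    rw [hc, h0]
    ring

theorem base0 (e r : ℕ) (he : e ≤ 1) (x : ℝ) :
    Fk e (e + 2 * r) 0 x = x ^ e * ev [cB e (e + 2 * r) 0] (x ^ 2) := by
  have hsgn : ((-1 : ℝ)) ^ (e + 2 * r) = (-1) ^ e := by
    rw [pow_add, pow_mul]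
    norm_num
  have hne : (((e + 2 * r : ℕ) : ℝ) + 1) ≠ 0 := by positivity
  unfold Fk
  rw [U_zero_left, U_zero_left, ev_cons, ev_nil, neg_pow x (e + 2 * r + 1), pow_succ (-1 : ℝ),
    hsgn]
  have he' : e = 0 ∨ e = 1 := by omega
  rcases he' with h0 | h0
  · have hc : ((cB e (e + 2 * r) 0 : ℚ) : ℝ) = 1 / (((e + 2 * r : ℕ) : ℝ) + 1) := by
      unfold cB
      rw [if_pos h0]
      push_cast
      ring
    rw [hc, h0]
    rw [h0] at hne
    field_simp
    ring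
  · have hc : ((cB e (e + 2 * r) 0 : ℚ) : ℝ) = 0 := by
      unfold cB
      rw [if_neg (by omega)]
      simp
    rw [hc, h0]
    ring

theorem ev_rep (c : ℚ) (z : ℝ) (r : ℕ) : ev (List.replicate r 0 ++ [c]) z = (c : ℝ) * z ^ r := by
  induction r with
  | zero => simp
  | succ n ih =>
    rw [List.replicate_succ, List.cons_append, ev_cons, ih]
    push_cast
    ring

theorem base1 (e r : ℕ) (he : e ≤ 1) (x : ℝ) :
    Fk e (e + 2 * r) 1 x = x ^ e * ev (cB e (e + 2 * r) 1 :: (List.replicate r 0 ++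
      [1 / (((e : ℚ) + 2 * (r : ℚ) + 1) * ((e : ℚ) + 2 * (r : ℚ) + 2))])) (x ^ 2) := by
  set N := e + 2 * r with hN
  have hsgn : ((-1 : ℝ)) ^ N = (-1) ^ e := by
    rw [hN, pow_add, pow_mul]
    norm_num
  have hNr : (N : ℝ) = (e : ℝ) + 2 * (r : ℝ) := by
    rw [hN]; push_cast; ring
  have hne : ((N : ℝ) + 1) ≠ 0 := by positivity
  have hne2 : ((N : ℝ) + 2) ≠ 0 := by positivity
  have h1 : ∀ x, Fk e N 1 x - x ^ (N + 2) / (((N : ℝ) + 1) * ((N : ℝ) + 2)) -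
      (((-1) ^ e - 1) / 2 / ((N : ℝ) + 1)) * x = Fk e N 1 0 := by
    intro x
    have h := const_of_deriv (fun x => Fk e N 1 x - x ^ (N + 2) / (((N : ℝ) + 1) * ((N : ℝ) + 2)) -
      (((-1) ^ e - 1) / 2 / ((N : ℝ) + 1)) * x) (fun y => by
        have h3 := ((Fk_deriv e N 0 y).sub ((hasDerivAt_pow (N + 2) y).div_const
          (((N : ℝ) + 1) * ((N : ℝ) + 2)))).sub
          ((hasDerivAt_id y).const_mul (((-1 : ℝ) ^ e - 1) / 2 / ((N : ℝ) + 1)))
        have e4 : (((0 : ℕ) : ℝ) + 1) * Hk e N 0 y -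
            ((N + 2 : ℕ) : ℝ) * y ^ (N + 2 - 1) / (((N : ℝ) + 1) * ((N : ℝ) + 2)) -
            (((-1 : ℝ) ^ e - 1) / 2 / ((N : ℝ) + 1)) * 1 = 0 := by
          unfold Hk
          rw [U_zero_left, U_zero_left, neg_pow y (N + 1), pow_succ (-1 : ℝ), hsgn,
            show N + 2 - 1 = N + 1 by omega]
          have hs : ((-1 : ℝ)) ^ e * (-1) ^ e = 1 := by
            rw [← mul_pow]; norm_num
          push_cast
          field_simp
          linear_combination (y ^ (N + 1) - 1) * hs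
        rw [e4] at h3
        exact h3) x
    rw [h]
    rw [show (0 : ℝ) ^ (N + 2) = 0 from zero_pow (by omega)]
    ring
  have hU1 := U_zero_right N 1
  rw [hsgn] at hU1
  have hF0 : Fk e N 1 0 = 1 / 2 * (1 + (-1) ^ e) * ((-1) ^ e / ((N : ℝ) + 2)) := by
    unfold Fk
    rw [neg_zero, hU1]
    push_cast
    rw [show (N : ℝ) + 1 + 1 = (N : ℝ) + 2 by ring]
    ring
  have h3 := h1 x
  rw [hF0] at h3
  have h4 : Fk e N 1 x = x ^ (N + 2) / (((N : ℝ) + 1) * ((N : ℝ) + 2)) +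
      (((-1) ^ e - 1) / 2 / ((N : ℝ) + 1)) * x +
      1 / 2 * (1 + (-1) ^ e) * ((-1) ^ e / ((N : ℝ) + 2)) := by
    linear_combination h3
  have hpow : x ^ (N + 2) = x ^ e * (x ^ 2 * (x ^ 2) ^ r) := by
    rw [hN, pow_add, pow_add, pow_mul]
    ring
  rw [h4, ev_cons, ev_rep, hpow]
  push_cast
  rw [← hNr]
  have he' : e = 0 ∨ e = 1 := by omega
  rcases he' with h0 | h0
  · have hc : ((cB e N 1 : ℚ) : ℝ) = 1 / ((N : ℝ) + 2) := by
      unfold cB
      rw [if_pos h0]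
      push_cast
      rw [show (N : ℝ) + 1 + 1 = (N : ℝ) + 2 by ring]
    rw [hc, h0]
    ring
  · have hc : ((cB e N 1 : ℚ) : ℝ) = -1 / ((N : ℝ) + 1) := by
      unfold cB
      rw [if_neg (by omega)]
      push_cast
      ring
    rw [hc, h0]
    ring

/-- the kernel integral -/
noncomputable def W (N k : ℕ) (bs : List ℚ) (x : ℝ) : ℝ :=
  ∫ y in (-1 : ℝ)..x, (x - y) ^ k * ev bs (x - y) * y ^ N

theorem W_cons (N k : ℕ) (b : ℚ) (bs : List ℚ) (x : ℝ) :
    W N k (b :: bs) x = (b : ℝ) * U N k x + W N (k + 1) bs x := by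
  unfold W U
  have c1 : Continuous (fun y : ℝ => (b : ℝ) * ((x - y) ^ k * y ^ N)) := by fun_prop
  have c2 : Continuous (fun y : ℝ => (x - y) ^ (k + 1) * ev bs (x - y) * y ^ N) := by
    have := continuous_ev bs
    fun_prop
  rw [← intervalIntegral.integral_const_mul, ← intervalIntegral.integral_add
    (c1.intervalIntegrable _ _) (c2.intervalIntegrable _ _)]
  congr 1
  funext y
  rw [ev_cons]
  ring

theorem bacc (e r : ℕ) (he : e ≤ 1) : ∀ (bs : List ℚ) (k : ℕ) (X Y : List ℚ),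
    (∀ x : ℝ, Fk e (e + 2 * r) k x = x ^ e * ev X (x ^ 2)) →
    (∀ x : ℝ, Fk e (e + 2 * r) (k + 1) x = x ^ e * ev Y (x ^ 2)) →
    ∀ x : ℝ, 1 / 2 * (W (e + 2 * r) k bs x + (-1) ^ e * W (e + 2 * r) k bs (-x)) =
      x ^ e * ev (Bacc e (e + 2 * r) k X Y bs) (x ^ 2)
  | [], k, X, Y, hX, hY, x => by
      simp [Bacc, W]
  | b :: bs, k, X, Y, hX, hY, x => by
      have h := bacc e r he bs (k + 1) Y _ hY (step e r k he X hX) x
      rw [W_cons, W_cons]
      unfold Bacc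
      rw [ev_padd, ev_psm]
      have h1 := hX x
      unfold Fk at h1
      linear_combination h + (b : ℝ) * h1

theorem ev_Bl (e r : ℕ) (he : e ≤ 1) (bt : List ℚ) (x : ℝ) :
    ev (Bl bt (mono (e + 2 * r))) x = x ^ e * ev (Bmt e r bt) (x ^ 2) := by
  have h := bacc e r he bt 0 [cB e (e + 2 * r) 0] (cB e (e + 2 * r) 1 :: (List.replicate r 0 ++
      [1 / (((e : ℚ) + 2 * (r : ℚ) + 1) * ((e : ℚ) + 2 * (r : ℚ) + 2))])) (base0 e r he)
      (base1 e r he) x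
  unfold Bmt
  rw [← h]
  unfold Bl
  rw [ev_psm, ev_padd, Pool.Agent.W15.WP.ev_Jm, Pool.Agent.W15.WP.ev_pneg,
    Pool.Agent.W15.WP.ev_Jm]
  have hsgn : ((-1 : ℝ)) ^ (e + 2 * r) = (-1) ^ e := by
    rw [pow_add, pow_mul]
    norm_num
  have h1 : ∫ y in (-1 : ℝ)..x, ev bt (x - y) * ev (mono (e + 2 * r)) y =
      W (e + 2 * r) 0 bt x := by
    unfold W
    congr 1
    funext y
    rw [ev_mono, pow_zero, one_mul]
  have h2 : ∫ y in (-1 : ℝ)..(-x), ev bt (-x - y) * ev (pneg (mono (e + 2 * r))) y =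
      (-1) ^ e * W (e + 2 * r) 0 bt (-x) := by
    unfold W
    rw [← intervalIntegral.integral_const_mul]
    congr 1
    funext y
    rw [Pool.Agent.W15.WP.ev_pneg, ev_mono, pow_zero, one_mul, neg_pow, hsgn]
    ring
  rw [h1, h2]
  push_cast
  ring

theorem r2c : S_R2C := by
  intro e r he bt w hw
  have h := Pool.Agent.W15.WP.r2b bt (mono (e + 2 * r)) w hw
  have e1 : (∫ x in (-1 : ℝ)..1, (∫ y in x..1, ev bt (y - x) *
      ((x ^ (e + 2 * r) * w y + y ^ (e + 2 * r) * w x) / 2))) =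
      ∫ x in (-1 : ℝ)..1, (∫ y in x..1, ev bt (y - x) *
        ((ev (mono (e + 2 * r)) x * w y + ev (mono (e + 2 * r)) y * w x) / 2)) := by
    simp only [ev_mono]
  rw [e1, h]
  congr 1
  funext x
  rw [ev_Bl e r he]

end Pool.Agent.W439.WP
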